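import Pool.Agent.H207.TF.Stm

/-!
# Project TF: the dimension of the tangent space of the stratum
-/

set_option autoImplicit false

open Polynomial

namespace Pool.Agent.H643.TF207

open Pool.Agent.H792R2.CE Pool.Agent.H207.TF

/-- the tangent vectors form a submodule -/
noncomputable def VT (P Q : ℂ[X]) (d : ℕ) : Submodule ℂ ℂ[X] where
  carrier := {S | S.natDegree ≤ 2 * d ∧ Tan P Q S}
  add_mem' := by
    rintro S S' ⟨h1, u, hu⟩ ⟨h1', u', hu'⟩
    refine ⟨(natDegree_add_le _ _).trans (max_le h1 h1'), fun y => u y + u' y, fun c hc => ?_⟩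
    have h2 : S + S' - C (u (rf P Q c) + u' (rf P Q c)) * Q ^ 2 =
        (S - C (u (rf P Q c)) * Q ^ 2) + (S' - C (u' (rf P Q c)) * Q ^ 2) := by
      rw [C_add]
      ring
    rw [h2]
    exact dvd_add (hu c hc) (hu' c hc)
  zero_mem' := by
    refine ⟨by simp, fun _ => 0, fun c _ => ?_⟩
    simp
  smul_mem' := by
    rintro a S ⟨h1, u, hu⟩
    refine ⟨(natDegree_smul_le _ _).trans h1, fun y => a * u y, fun c hc => ?_⟩
    have h2 : a • S - C (a * u (rf P Q c)) * Q ^ 2 = C a * (S - C (u (rf P Q c)) * Q ^ 2) := by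
      rw [smul_eq_C_mul, C_mul]
      ring
    rw [h2]
    exact Dvd.dvd.mul_left (hu c hc) _

theorem mem_VT {P Q : ℂ[X]} {d : ℕ} {S : ℂ[X]} :
    S ∈ VT P Q d ↔ S.natDegree ≤ 2 * d ∧ Tan P Q S := Iff.rfl

/-- a tangent vector whose speeds vanish is a multiple of the Wronskian -/
theorem dvd_of_zero {P Q S : ℂ[X]} (hN : wr P Q ≠ 0)
    (h : ∀ c : ℂ, (wr P Q).eval c = 0 → (X - C c) ^ (wr P Q).rootMultiplicity c ∣ S) :
    wr P Q ∣ S := by
  classical
  by_cases hS : S = 0
  · rw [hS]
    exact dvd_zero _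
  refine (IsAlgClosed.splits (wr P Q)).dvd_of_roots_le_roots hN ?_
  rw [Multiset.le_iff_count]
  intro c
  rw [count_roots, count_roots]
  by_cases hc : (wr P Q).eval c = 0
  · exact (le_rootMultiplicity_iff hS).2 (h c hc)
  · rw [rootMultiplicity_eq_zero hc]
    exact Nat.zero_le _

theorem t_DIM : Pool.Agent.H207.TF.S_DIM := by
  classical
  intro P Q d hd hNd hN hQ n T hT hTm hn
  obtain ⟨I, hI⟩ : ∃ I, I = (wr P Q).roots.toFinset.image (rf P Q) := ⟨_, rfl⟩
  rw [← hI] at hn
  -- the chosen critical points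
  have hch : ∀ y : I, ∃ c : ℂ, (wr P Q).eval c = 0 ∧ rf P Q c = y := by
    intro y
    have h1 : (y : ℂ) ∈ (wr P Q).roots.toFinset.image (rf P Q) := by
      rw [← hI]; exact y.2
    rw [Finset.mem_image] at h1
    obtain ⟨c, hc, hcy⟩ := h1
    rw [Multiset.mem_toFinset, mem_roots hN] at hc
    exact ⟨c, hc, hcy⟩
  choose cy hcy0 hcy using hch
  have hVle : VT P Q d ≤ degreeLT ℂ (2 * d + 1) := by
    intro S hS
    rw [mem_degreeLT]
    refine lt_of_le_of_lt (degree_le_natDegree) ?_
    exact_mod_cast Nat.lt_succ_of_le (mem_VT.1 hS).1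
  have hfd0 : FiniteDimensional ℂ (degreeLT ℂ (2 * d + 1)) :=
    (degreeLTEquiv ℂ (2 * d + 1)).symm.finiteDimensional
  have hfd : FiniteDimensional ℂ (VT P Q d) := Submodule.finiteDimensional_of_le hVle
  let φ : VT P Q d →ₗ[ℂ] (I → ℂ) :=
    { toFun := fun S y => (S : ℂ[X]).eval (cy y) / Q.eval (cy y) ^ 2
      map_add' := fun S S' => by
        funext y
        simp [add_div]
      map_smul' := fun a S => by
        funext y
        simp [mul_div_assoc] }
  have hφ : ∀ (S : VT P Q d) (y : I), φ S y = (S : ℂ[X]).eval (cy y) / Q.eval (cy y) ^ 2 :=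
    fun S y => rfl
  -- the kernel
  have hker : (LinearMap.ker φ).map (VT P Q d).subtype ≤
      (degreeLT ℂ 3).map (LinearMap.mulLeft ℂ (wr P Q)) := by
    rintro _ ⟨S, hS, rfl⟩
    have hS0 : ∀ y, (S : ℂ[X]).eval (cy y) = 0 := by
      intro y
      have h1 : φ S = 0 := hS
      have h2 := congrFun h1 y
      rw [hφ, Pi.zero_apply, div_eq_zero_iff] at h2
      rcases h2 with h2 | h2
      · exact h2
      · exact absurd (pow_eq_zero_iff two_ne_zero |>.1 h2) (hQ _ (hcy0 y))
    obtain ⟨hSd, u, hu⟩ := mem_VT.1 S.2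
    have hmult : ∀ c : ℂ, (wr P Q).eval c = 0 → 1 ≤ (wr P Q).rootMultiplicity c := fun c hc =>
      (rootMultiplicity_pos hN).2 hc
    have hval : ∀ c : ℂ, (wr P Q).eval c = 0 →
        (S : ℂ[X]).eval c = u (rf P Q c) * Q.eval c ^ 2 := by
      intro c hc
      have h1 : (X - C c) ∣ (S : ℂ[X]) - C (u (rf P Q c)) * Q ^ 2 := by
        refine dvd_trans ?_ (hu c hc)
        exact dvd_pow_self _ (by have := hmult c hc; omega)
      rw [dvd_iff_isRoot, IsRoot.def] at h1
      simp only [eval_sub, eval_mul, eval_C, eval_pow] at h1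
      exact sub_eq_zero.1 h1
    have hu0 : ∀ c : ℂ, (wr P Q).eval c = 0 → u (rf P Q c) = 0 := by
      intro c hc
      have hyI : rf P Q c ∈ I := by
        rw [hI, Finset.mem_image]
        exact ⟨c, by rw [Multiset.mem_toFinset, mem_roots hN]; exact hc, rfl⟩
      have h1 := hval (cy ⟨_, hyI⟩) (hcy0 _)
      rw [hS0, hcy] at h1
      have h2 : Q.eval (cy ⟨_, hyI⟩) ^ 2 ≠ 0 := pow_ne_zero _ (hQ _ (hcy0 _))
      exact (mul_eq_zero.1 h1.symm).resolve_right h2
    have hdv : wr P Q ∣ (S : ℂ[X]) := by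
      refine dvd_of_zero hN fun c hc => ?_
      have h1 := hu c hc
      rwa [hu0 c hc, C_0, zero_mul, sub_zero] at h1
    obtain ⟨h, hh⟩ := hdv
    refine ⟨h, ?_, ?_⟩
    · rw [SetLike.mem_coe, mem_degreeLT]
      by_cases hz : h = 0
      · rw [hz, degree_zero]
        exact WithBot.bot_lt_coe _
      · have h1 := natDegree_mul hN hz
        rw [← hh, hNd] at h1
        refine lt_of_le_of_lt degree_le_natDegree ?_
        have h2 : h.natDegree < 3 := by omega
        exact_mod_cast h2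
    · exact hh.symm
  have hk3 : Module.finrank ℂ (LinearMap.ker φ) ≤ 3 := by
    have h1 : Module.finrank ℂ ((LinearMap.ker φ).map (VT P Q d).subtype) =
        Module.finrank ℂ (LinearMap.ker φ) :=
      (LinearEquiv.finrank_eq (Submodule.equivMapOfInjective (VT P Q d).subtype
        (Submodule.subtype_injective _) (LinearMap.ker φ))).symm
    have hfd3 : FiniteDimensional ℂ (degreeLT ℂ 3) := (degreeLTEquiv ℂ 3).symm.finiteDimensional
    have h2 := Submodule.finrank_mono hker
    have h3 := Submodule.finrank_map_le (LinearMap.mulLeft ℂ (wr P Q)) (degreeLT ℂ 3)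
    have h4 : Module.finrank ℂ (degreeLT ℂ 3) = 3 := by
      rw [(degreeLTEquiv ℂ 3).finrank_eq, Module.finrank_fin_fun]
    omega
  have hV : Module.finrank ℂ (VT P Q d) ≤ n := by
    have h1 := φ.finrank_range_add_finrank_ker
    have h2 : Module.finrank ℂ (LinearMap.range φ) ≤ I.card := by
      have h3 := Submodule.finrank_le (LinearMap.range φ)
      rw [Module.finrank_fintype_fun_eq_card, Fintype.card_coe] at h3
      exact h3
    omega
  have hTV : LinearMap.range T ≤ VT P Q d := by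
    rintro _ ⟨v, rfl⟩
    exact hTm v
  have hTf : Module.finrank ℂ (LinearMap.range T) = n := by
    rw [LinearMap.finrank_range_of_inj hT, Module.finrank_fin_fun]
  have heq : LinearMap.range T = VT P Q d :=
    Submodule.eq_of_le_of_finrank_le hTV (by rw [hTf]; exact hV)
  intro S hSd hSt
  have hS : S ∈ LinearMap.range T := by
    rw [heq]
    exact ⟨hSd, hSt⟩
  exact hS

end Pool.Agent.H643.TF207
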