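import Pool.Agent.H207.TF.Stm
import Pool.Graph.R_seed8.H792R2.CE.D7

/-!
# Project TF: transversality in the stratum

Adapted from `Pool/Graph/R_seed8/H792R2/CE/D7.lean` and `D2.lean`.
-/

set_option autoImplicit false

open Filter Topology Metric Set Polynomial MeasureTheory
open scoped OnePoint ENNReal

namespace Pool.Agent.H643.TF207

open Pool.Agent.H792R2.CE Pool.Agent.H207.TF

/-- a critical point of multiplicity `k` is a root of multiplicity more than `k` of `P - y Q` -/
theorem crit_dvd {P Q : ℂ[X]} {c y : ℂ} {k : ℕ} (hk : (X - C c) ^ k ∣ wr P Q)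
    (hQc : Q.eval c ≠ 0) (hy : y = rf P Q c) : (X - C c) ^ (k + 1) ∣ P - C y * Q := by
  have hwr : wr P Q = derivative (P - C y * Q) * Q - (P - C y * Q) * derivative Q := by
    unfold wr
    simp only [derivative_sub, derivative_mul, derivative_C, zero_mul, zero_add]
    ring
  have key : ∀ i, i ≤ k → (X - C c) ^ (i + 1) ∣ P - C y * Q := by
    intro i
    induction i with
    | zero =>
      intro _
      rw [zero_add, pow_one, dvd_iff_isRoot, IsRoot.def]
      simp only [eval_sub, eval_mul, eval_C]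
      rw [hy, rf, div_mul_cancel₀ _ hQc, sub_self]
    | succ i ih =>
      intro hi
      obtain ⟨g, hg⟩ := ih (by omega)
      have h1 : derivative (P - C y * Q) =
          C ((i : ℂ) + 1) * (X - C c) ^ i * g + (X - C c) ^ (i + 1) * derivative g := by
        rw [hg, derivative_mul, derivative_X_sub_C_pow]
        simp only [Nat.add_sub_cancel, map_add, map_one, map_natCast, Nat.cast_add, Nat.cast_one]
      have h2 : (X - C c) ^ (i + 1) ∣ wr P Q := (pow_dvd_pow _ hi).trans hk
      have h3 : (X - C c) ^ (i + 1) ∣ (X - C c) ^ i * (C ((i : ℂ) + 1) * g * Q) := by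
        have h4 : (X - C c) ^ i * (C ((i : ℂ) + 1) * g * Q) =
            wr P Q - (X - C c) ^ (i + 1) * (derivative g * Q - g * derivative Q) := by
          rw [hwr, h1, hg]
          ring
        rw [h4]
        exact dvd_sub h2 (dvd_mul_right _ _)
      have h5 : (X - C c) ∣ C ((i : ℂ) + 1) * g * Q := by
        rw [pow_succ] at h3
        exact (mul_dvd_mul_iff_left (pow_ne_zero _ (X_sub_C_ne_zero c))).1 h3
      rw [dvd_iff_isRoot, IsRoot.def, eval_mul, eval_mul, eval_C] at h5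
      have h6 : (i : ℂ) + 1 ≠ 0 := Nat.cast_add_one_ne_zero i
      have h7 : g.eval c = 0 := by
        rcases mul_eq_zero.1 h5 with h8 | h8
        · exact (mul_eq_zero.1 h8).resolve_left h6
        · exact absurd h8 hQc
      have h8 : (X - C c) ∣ g := by rwa [dvd_iff_isRoot]
      obtain ⟨g', hg'⟩ := h8
      refine ⟨g', ?_⟩
      rw [hg, hg']
      ring
  exact key k le_rfl

theorem dvd_of_dvd_mul_eval {A B : ℂ[X]} {c : ℂ} {k : ℕ} (h : (X - C c) ^ k ∣ A * B)
    (hB : B.eval c ≠ 0) : (X - C c) ^ k ∣ A := by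
  have h1 : IsCoprime (X - C c) B := by
    rw [Polynomial.isCoprime_iff_aeval_ne_zero_of_isAlgClosed ℂ ℂ]
    intro a
    by_cases ha : a = c
    · right
      rw [ha]
      simpa using hB
    · left
      simpa [sub_eq_zero] using ha
  exact (h1.pow_left (m := k)).dvd_of_dvd_mul_right h

/-- the multiples of the Wronskian -/
theorem tan_mul {P Q h : ℂ[X]} : Tan P Q (wr P Q * h) := by
  refine ⟨fun _ => 0, fun c _ => ?_⟩
  rw [map_zero, zero_mul, sub_zero]
  exact Dvd.dvd.mul_right (pow_rootMultiplicity_dvd _ _) h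

/-- the polynomials of the partial fraction decomposition -/
theorem tan_pf {P Q S : ℂ[X]} {x : ℂ} (hQ : ∀ c : ℂ, (wr P Q).eval c = 0 → Q.eval c ≠ 0)
    (hx : ∀ w, (wr P Q).eval w = 0 → rf P Q w ≠ x) (hx0 : P - C x * Q ≠ 0)
    (hS : ∀ z, (P - C x * Q).eval z ≠ 0 →
      Q.eval z ^ 3 / (P - C x * Q).eval z = S.eval z + (wr P Q).eval z *
        ∑ w ∈ (P - C x * Q).roots.toFinset, Q.eval w ^ 4 / (wr P Q).eval w ^ 2 / (z - w)) :
    Tan P Q S := by
  classical
  obtain ⟨D, hD⟩ : ∃ D, D = P - C x * Q := ⟨_, rfl⟩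
  obtain ⟨W, hW⟩ : ∃ W, W = D.roots.toFinset := ⟨_, rfl⟩
  rw [← hD, ← hW] at hS
  rw [← hD] at hx0
  have hWm : ∀ w, w ∈ W ↔ D.eval w = 0 := by
    intro w
    rw [hW, Multiset.mem_toFinset, mem_roots hx0, IsRoot.def]
  have hpoly : (Q ^ 3 - S * D) * ∏ w ∈ W, (X - C w) =
      wr P Q * (D * ∑ w ∈ W, C (Q.eval w ^ 4 / (wr P Q).eval w ^ 2) * ∏ w' ∈ W.erase w, (X - C w')) := by
    refine Polynomial.eq_of_infinite_eval_eq _ _ ?_
    have hinf : ((W : Set ℂ)ᶜ).Infinite := (W.finite_toSet).infinite_compl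
    refine hinf.mono fun z hz => ?_
    have hzW : z ∉ W := hz
    have hDz : D.eval z ≠ 0 := fun h => hzW ((hWm z).2 h)
    have h1 := hS z hDz
    rw [div_eq_iff hDz] at h1
    show ((Q ^ 3 - S * D) * ∏ w ∈ W, (X - C w)).eval z = _
    simp only [eval_mul, eval_sub, eval_pow, eval_prod, eval_finsetSum, eval_X, eval_C]
    rw [h1]
    have h2 : ∀ w ∈ W, (Q.eval w ^ 4 / (wr P Q).eval w ^ 2 / (z - w)) * ∏ w' ∈ W, (z - w') =
        Q.eval w ^ 4 / (wr P Q).eval w ^ 2 * ∏ w' ∈ W.erase w, (z - w') := by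
      intro w hw
      have h3 : z - w ≠ 0 := sub_ne_zero.2 fun h => hzW (h ▸ hw)
      rw [← Finset.mul_prod_erase W _ hw]
      field_simp
    have h3 : (∑ w ∈ W, Q.eval w ^ 4 / (wr P Q).eval w ^ 2 / (z - w)) * ∏ w' ∈ W, (z - w') =
        ∑ w ∈ W, Q.eval w ^ 4 / (wr P Q).eval w ^ 2 * ∏ w' ∈ W.erase w, (z - w') := by
      rw [Finset.sum_mul]
      exact Finset.sum_congr rfl h2
    rw [← h3]
    ring
  refine ⟨fun y => 1 / (y - x), fun c hc => ?_⟩
  obtain ⟨k, hk⟩ : ∃ k, k = (wr P Q).rootMultiplicity c := ⟨_, rfl⟩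
  obtain ⟨y, hy⟩ : ∃ y, y = rf P Q c := ⟨_, rfl⟩
  rw [← hk, ← hy]
  have hQc := hQ c hc
  have hyx : y - x ≠ 0 := by
    rw [hy]
    exact sub_ne_zero.2 (hx c hc)
  have hN : (X - C c) ^ k ∣ wr P Q := by rw [hk]; exact pow_rootMultiplicity_dvd _ _
  have hDc : D.eval c ≠ 0 := by
    rw [hD]
    intro h0
    simp only [eval_sub, eval_mul, eval_C] at h0
    apply hx c hc
    rw [rf, div_eq_iff hQc]
    exact sub_eq_zero.1 h0
  have h1 : (X - C c) ^ k ∣ Q ^ 3 - S * D := by
    refine dvd_of_dvd_mul_eval (B := ∏ w ∈ W, (X - C w)) ?_ ?_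
    · rw [hpoly]
      exact Dvd.dvd.mul_right hN _
    · rw [eval_prod, Finset.prod_ne_zero_iff]
      intro w hw
      simp only [eval_sub, eval_X, eval_C]
      refine sub_ne_zero.2 fun h => hDc ?_
      rw [h]
      exact (hWm w).1 hw
  have h2 : (X - C c) ^ k ∣ P - C y * Q := (pow_dvd_pow _ (Nat.le_succ k)).trans (crit_dvd hN hQc hy)
  have h3 : (X - C c) ^ k ∣ (Q ^ 2 - C (y - x) * S) * Q := by
    have h4 : (Q ^ 2 - C (y - x) * S) * Q = (Q ^ 3 - S * D) + S * (P - C y * Q) := by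
      rw [hD, C_sub]
      ring
    rw [h4]
    exact dvd_add h1 (Dvd.dvd.mul_left h2 S)
  have h4 := dvd_of_dvd_mul_eval h3 hQc
  have h5 : S - C (1 / (y - x)) * Q ^ 2 = C (-(1 / (y - x))) * (Q ^ 2 - C (y - x) * S) := by
    have h6 : C (1 / (y - x)) * C (y - x) = (1 : ℂ[X]) := by
      rw [← C_mul, one_div, inv_mul_cancel₀ hyx, C_1]
    rw [C_neg]
    linear_combination (-S) * h6
  rw [h5]
  exact Dvd.dvd.mul_left h4 _

/-- D2. invariance of the Cauchy series under the Ruelle operator. -/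
theorem D2_inv2 {P Q : ℂ[X]} {c : ℂ} {v α : ℕ → ℂ} (hc : (wr P Q).eval c = 0)
    (hQc : Q.eval c ≠ 0) (hv0 : v 0 = rf P Q c) (hvs : ∀ j, v (j + 1) = rf P Q (v j))
    (hα0 : α 0 = 1) (hαs : ∀ j, α (j + 1) = α j * (Q.eval (v j) ^ 2 / (wr P Q).eval (v j)))
    (hQv : ∀ j, Q.eval (v j) ≠ 0) (hNv : ∀ j, (wr P Q).eval (v j) ≠ 0)
    {S : ℂ[X]} (hT : (Summable fun j => S.eval (v j) / (wr P Q).eval (v j) * α j) ∧
      S.eval c / Q.eval c ^ 2 + ∑' j, S.eval (v j) / (wr P Q).eval (v j) * α j = 0)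
    {x : ℂ} (_hx0 : P - C x * Q ≠ 0) (hxv : ∀ j, x ≠ v j)
    (hsum : Summable fun j => α j / (x - v j))
    (hsumw : ∀ w, (P - C x * Q).eval w = 0 → Summable fun j => α j / (w - v j))
    (hS : ∀ z, (P - C x * Q).eval z ≠ 0 →
      Q.eval z ^ 3 / (P - C x * Q).eval z = S.eval z + (wr P Q).eval z *
        ∑ w ∈ (P - C x * Q).roots.toFinset, Q.eval w ^ 4 / (wr P Q).eval w ^ 2 / (z - w)) :
    phi α v x = ∑ w ∈ (P - C x * Q).roots.toFinset,
      Q.eval w ^ 4 / (wr P Q).eval w ^ 2 * phi α v w := by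
  obtain ⟨hTs, hT0⟩ := hT
  set W : Finset ℂ := (P - C x * Q).roots.toFinset with hW
  have hroot : ∀ w ∈ W, (P - C x * Q).eval w = 0 := by
    intro w hw
    rw [hW, Multiset.mem_toFinset] at hw
    exact (mem_roots'.1 hw).2
  -- values of `D` along the orbit
  have hD : ∀ z y : ℂ, Q.eval z ≠ 0 → y = rf P Q z → (P - C x * Q).eval z = Q.eval z * (y - x) := by
    intro z y hz hy
    rw [hy, rf]
    simp only [eval_sub, eval_mul, eval_C]
    field_simp
  -- at the critical point
  have hv0x : v 0 - x ≠ 0 := sub_ne_zero.2 (hxv 0).symm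
  have hDc : (P - C x * Q).eval c = Q.eval c * (v 0 - x) := hD c (v 0) hQc hv0
  have hSc : S.eval c / Q.eval c ^ 2 = 1 / (v 0 - x) := by
    have h := hS c (by rw [hDc]; exact mul_ne_zero hQc hv0x)
    rw [hc, zero_mul, add_zero, hDc] at h
    rw [← h]
    field_simp
  -- at the points of the orbit
  have hstep : ∀ j, α (j + 1) / (v (j + 1) - x) =
      S.eval (v j) / (wr P Q).eval (v j) * α j +
        ∑ w ∈ W, Q.eval w ^ 4 / (wr P Q).eval w ^ 2 * (α j / (v j - w)) := by
    intro j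
    have hvx : v (j + 1) - x ≠ 0 := sub_ne_zero.2 (hxv (j + 1)).symm
    have hDj : (P - C x * Q).eval (v j) = Q.eval (v j) * (v (j + 1) - x) :=
      hD (v j) (v (j + 1)) (hQv j) (hvs j)
    have h := hS (v j) (by rw [hDj]; exact mul_ne_zero (hQv j) hvx)
    have h2 : Q.eval (v j) ^ 2 / (v (j + 1) - x) = S.eval (v j) + (wr P Q).eval (v j) *
        ∑ w ∈ W, Q.eval w ^ 4 / (wr P Q).eval w ^ 2 / (v j - w) := by
      rw [← h, hDj]
      have := hQv j
      field_simp
    have h3 : α (j + 1) / (v (j + 1) - x) =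
        α j / (wr P Q).eval (v j) * (Q.eval (v j) ^ 2 / (v (j + 1) - x)) := by
      rw [hαs j]
      ring
    rw [h3, h2, mul_add]
    congr 1
    · ring
    · have hN := hNv j
      rw [← mul_assoc, div_mul_cancel₀ _ hN, Finset.mul_sum]
      exact Finset.sum_congr rfl fun w _ => by ring
  -- summation
  have hsw : ∀ w ∈ W, Summable fun j => Q.eval w ^ 4 / (wr P Q).eval w ^ 2 * (α j / (v j - w)) := by
    intro w hw
    apply Summable.mul_left
    have h := (hsumw w (hroot w hw)).neg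
    refine h.congr fun j => ?_
    rw [← div_neg, neg_sub]
  have htw : ∀ w ∈ W, ∑' j, Q.eval w ^ 4 / (wr P Q).eval w ^ 2 * (α j / (v j - w)) =
      -(Q.eval w ^ 4 / (wr P Q).eval w ^ 2 * phi α v w) := by
    intro w hw
    rw [tsum_mul_left, phi, ← mul_neg, ← tsum_neg]
    congr 1
    refine tsum_congr fun j => ?_
    rw [← div_neg, neg_sub]
  have hL : ∑' j, α (j + 1) / (v (j + 1) - x) = -(phi α v x) + 1 / (x - v 0) := by
    have h := hsum.tsum_eq_zero_add
    rw [hα0] at h
    rw [phi, h]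
    have h2 : ∑' j, α (j + 1) / (v (j + 1) - x) = -∑' j, α (j + 1) / (x - v (j + 1)) := by
      rw [← tsum_neg]
      refine tsum_congr fun j => ?_
      rw [← div_neg, neg_sub]
    rw [h2]
    ring
  have hR : ∑' j, (S.eval (v j) / (wr P Q).eval (v j) * α j +
        ∑ w ∈ W, Q.eval w ^ 4 / (wr P Q).eval w ^ 2 * (α j / (v j - w))) =
      -(1 / (v 0 - x)) + ∑ w ∈ W, -(Q.eval w ^ 4 / (wr P Q).eval w ^ 2 * phi α v w) := by
    rw [hTs.tsum_add (summable_sum hsw), Summable.tsum_finsetSum hsw,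
      Finset.sum_congr rfl htw]
    congr 1
    rw [← hSc]
    exact eq_neg_of_add_eq_zero_right hT0
  have hfin : -(phi α v x) + 1 / (x - v 0) =
      -(1 / (v 0 - x)) + ∑ w ∈ W, -(Q.eval w ^ 4 / (wr P Q).eval w ^ 2 * phi α v w) := by
    rw [← hL, ← hR]
    exact tsum_congr hstep
  have hneg : 1 / (x - v 0) = -(1 / (v 0 - x)) := by
    rw [← neg_sub (v 0) x, div_neg]
  rw [hneg, add_comm, Finset.sum_neg_distrib] at hfin
  have := add_left_cancel hfin
  exact neg_injective this

/-- **Transversality in the stratum.** -/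
theorem transversal2 {P Q : ℂ[X]} {d : ℕ} (hd : 2 ≤ d) (hPQ : IsCoprime P Q)
    (hPd : P.natDegree ≤ d) (hQd : Q.natDegree = d)
    (hQcr : ∀ c : ℂ, (wr P Q).eval c = 0 → Q.eval c ≠ 0) {c : ℂ} (hc : (wr P Q).eval c = 0)
    (hN : wr P Q ≠ 0) {K : Set ℂ} (hK : IsCompact K) (hKc : ∀ j, (rf P Q)^[j] c ∈ K)
    (hKQ : ∀ z ∈ K, Q.eval z ≠ 0) (hne : ∀ j, deriv ((rf P Q)^[j]) (rf P Q c) ≠ 0)
    (hsum : Summable fun j => ‖deriv ((rf P Q)^[j]) (rf P Q c)‖⁻¹)
    {A₀ : Set ℂ} (hA₀o : IsOpen A₀) (hA₀d : Dense A₀) (hA₀K : ∀ x ∈ A₀, x ∉ K)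
    (hwand : ∀ᵐ x : ℂ, x ∈ A₀ → ∃ U : Set ℂ, x ∈ U ∧ IsOpen U ∧
      ∀ y ∈ U, ∀ k, 0 < k → (rf P Q)^[k] y ∉ U)
    (hvol : volume (closure (Set.range fun j => (rf P Q)^[j] (rf P Q c))) = 0) :
    ∃ S : ℂ[X], S.natDegree ≤ 2 * d ∧ Tan P Q S ∧ ∑' j, S.eval ((rf P Q)^[j] c) /
      Q.eval ((rf P Q)^[j] c) ^ 2 / deriv ((rf P Q)^[j]) (rf P Q c) ≠ 0 := by
  classical
  by_contra hcon
  push Not at hcon
  obtain ⟨g, hg⟩ : ∃ g, g = rf P Q := ⟨_, rfl⟩
  rw [← hg] at hKc hne hsum hwand hcon hvol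
  set v : ℕ → ℂ := fun j => g^[j] (g c) with hv
  set α : ℕ → ℂ := fun j => (deriv (g^[j]) (g c))⁻¹ with hα
  have hvc : ∀ j, v j = g^[j + 1] c := fun j => (Function.iterate_succ_apply g j c).symm
  have hvK : ∀ j, v j ∈ K := fun j => by rw [hvc]; exact hKc _
  have hQv : ∀ j, Q.eval (v j) ≠ 0 := fun j => hKQ _ (hvK j)
  have hQc : Q.eval c ≠ 0 := by
    have := hKQ _ (hKc 0)
    simpa using this
  have hvs : ∀ j, v (j + 1) = rf P Q (v j) := by
    intro j
    simp only [hv, Function.iterate_succ_apply', hg]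
  have hderiv : ∀ j, deriv (g^[j + 1]) (g c) = (wr P Q).eval (v j) / Q.eval (v j) ^ 2 *
      deriv (g^[j]) (g c) := by
    intro j
    have h1 := rf_iter_deriv_succ (P := P) (Q := Q) (z := g c) j (fun i _ => by
      rw [← hg]; exact hQv i)
    rw [← hg] at h1
    exact h1
  have hNv : ∀ j, (wr P Q).eval (v j) ≠ 0 := by
    intro j h0
    have h1 := hderiv j
    rw [h0, zero_div, zero_mul] at h1
    exact hne _ h1
  have hα0 : α 0 = 1 := by
    simp [hα]
  have hαs : ∀ j, α (j + 1) = α j * (Q.eval (v j) ^ 2 / (wr P Q).eval (v j)) := by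
    intro j
    simp only [hα]
    rw [hderiv j, mul_inv, inv_div, mul_comm]
  have hαn : Summable fun j => ‖α j‖ := by
    simpa only [hα, norm_inv] using hsum
  have hαsum : Summable α := hαn.of_norm
  -- the functional
  have hT : ∀ S : ℂ[X], S.natDegree ≤ 2 * d → Tan P Q S →
      (Summable fun j => S.eval (v j) / (wr P Q).eval (v j) * α j) ∧
      S.eval c / Q.eval c ^ 2 + ∑' j, S.eval (v j) / (wr P Q).eval (v j) * α j = 0 := by
    intro S hS hTan
    have hterm : ∀ j, S.eval (v j) / (wr P Q).eval (v j) * α j =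
        S.eval (v j) / Q.eval (v j) ^ 2 * α (j + 1) := by
      intro j
      rw [hαs]
      have := hQv j
      have := hNv j
      field_simp
    obtain ⟨B, hB⟩ := hK.exists_bound_of_continuousOn
      (f := fun z => S.eval z / Q.eval z ^ 2)
      (S.continuous.continuousOn.div (Q.continuous.continuousOn.pow 2)
        fun z hz => pow_ne_zero _ (hKQ z hz))
    have hsm : Summable fun j => S.eval (v j) / (wr P Q).eval (v j) * α j := by
      have h1 : Summable fun j => B * ‖α (j + 1)‖ :=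
        ((summable_nat_add_iff 1).2 hαn).mul_left B
      refine Summable.of_norm_bounded h1 fun j => ?_
      rw [hterm, norm_mul]
      exact mul_le_mul_of_nonneg_right (hB _ (hvK j)) (norm_nonneg _)
    refine ⟨hsm, ?_⟩
    set a : ℕ → ℂ := fun j => S.eval (g^[j] c) / Q.eval (g^[j] c) ^ 2 / deriv (g^[j]) (g c) with ha
    have ha1 : ∀ j, a (j + 1) = S.eval (v j) / (wr P Q).eval (v j) * α j := by
      intro j
      rw [hterm]
      simp only [ha, hα, ← hvc]
      rw [div_eq_mul_inv]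
    have ha0 : a 0 = S.eval c / Q.eval c ^ 2 := by
      simp [ha]
    have hasum : Summable a := by
      rw [← summable_nat_add_iff 1]
      exact hsm.congr fun j => (ha1 j).symm
    have h2 : ∑' j, a j = 0 := hcon S hS hTan
    rw [hasum.tsum_eq_zero_add, ha0] at h2
    rw [← h2]
    congr 1
    exact tsum_congr fun j => (ha1 j).symm
  have hmom : ∀ h : ℂ[X], h.natDegree ≤ 2 → ∑' j, h.eval (v j) * α j = 0 := by
    intro h hh
    have h1 : (wr P Q * h).natDegree ≤ 2 * d := by
      refine Polynomial.natDegree_mul_le.trans ?_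
      have := wr_natDegree (by omega) hPd hQd.le
      omega
    obtain ⟨-, h2⟩ := hT _ h1 tan_mul
    rw [Polynomial.eval_mul, hc, zero_mul, zero_div, zero_add] at h2
    rw [← h2]
    refine tsum_congr fun j => ?_
    rw [Polynomial.eval_mul, mul_div_cancel_left₀ _ (hNv j)]
  have hm0 : ∑' j, α j = 0 := by
    have := hmom 1 (by simp)
    simpa using this
  have hm1 : ∑' j, α j * v j = 0 := by
    have := hmom X (by simp)
    rw [← this]
    exact tsum_congr fun j => by rw [Polynomial.eval_X, mul_comm]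
  have hm2 : ∑' j, α j * v j ^ 2 = 0 := by
    have := hmom (X ^ 2) (by simp)
    rw [← this]
    exact tsum_congr fun j => by rw [Polynomial.eval_pow, Polynomial.eval_X, mul_comm]
  obtain ⟨M, hM⟩ := hK.isBounded.exists_norm_le
  have hker := D3a_kernel
  obtain ⟨hφm, hφi⟩ := D3c_int hαn (fun j => hM _ (hvK j)) hker hm0 hm1 hm2
  have hgood := D3b_ae (v := v) hαn hker
  have hgm : Measurable g := by rw [hg]; exact rf_measurable P Q
  have hNfin : {z : ℂ | (wr P Q).eval z = 0}.Finite := by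
    refine ((wr P Q).roots.toFinset.finite_toSet).subset ?_
    intro z hz
    simp only [Finset.mem_coe, Multiset.mem_toFinset, Polynomial.mem_roots hN]
    exact hz
  have hnotboth : ∀ w, Q.eval w = 0 → P.eval w ≠ 0 := by
    intro w h1 h2
    obtain ⟨a, b, hab⟩ := hPQ
    have := congrArg (Polynomial.eval w) hab
    simp [h1, h2] at this
  have hlead : Q.coeff d ≠ 0 := by
    intro h0
    have h1 : Q.leadingCoeff = 0 := by rw [Polynomial.leadingCoeff, hQd]; exact h0
    rw [Polynomial.leadingCoeff_eq_zero] at h1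
    rw [h1] at hQd
    simp at hQd
    omega
  -- the pointwise inequality
  have hineq : ∀ᵐ x : ℂ, ‖phi α v x‖ₑ ≤ ∑ w ∈ (P - C x * Q).roots.toFinset,
      ‖Q.eval w ^ 4 / (wr P Q).eval w ^ 2‖ₑ * ‖phi α v w‖ₑ := by
    have hx1 : ∀ᵐ x : ℂ, x ∉ ({P.coeff d / Q.coeff d} : Set ℂ) ∪ rf P Q '' {z : ℂ | (wr P Q).eval z = 0} ∪
        Set.range v := by
      have h1 : (({P.coeff d / Q.coeff d} : Set ℂ) ∪ rf P Q '' {z : ℂ | (wr P Q).eval z = 0} ∪
        Set.range v).Countable :=
        ((Set.countable_singleton _).union (hNfin.image _).countable).union (Set.countable_range v)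
      exact h1.ae_notMem volume
    have hx2 : ∀ᵐ x : ℂ, x ∉ rf P Q '' ({w : ℂ | ¬ Summable fun j => ‖α j / (w - v j)‖} ∩
        {w | Q.eval w ≠ 0}) := by
      have h1 : volume (rf P Q '' ({w : ℂ | ¬ Summable fun j => ‖α j / (w - v j)‖} ∩
        {w | Q.eval w ≠ 0})) = 0 := by
        refine addHaar_image_eq_zero_of_differentiableOn_of_addHaar_eq_zero volume ?_ ?_
        · intro w hw
          exact ((rf_hasDerivAt hw.2).differentiableAt.restrictScalars ℝ).differentiableWithinAt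
        · exact measure_mono_null Set.inter_subset_left (ae_iff.1 hgood)
      exact measure_eq_zero_iff_ae_notMem.1 h1
    filter_upwards [hgood, hx1, hx2] with x hx hx1 hx2
    have hxz : x ≠ P.coeff d / Q.coeff d := fun h => hx1 (Or.inl (Or.inl h))
    have hxc : ∀ w, (wr P Q).eval w = 0 → rf P Q w ≠ x := fun w hw h =>
      hx1 (Or.inl (Or.inr ⟨w, hw, h⟩))
    have hxv : ∀ j, x ≠ v j := fun j h => hx1 (Or.inr ⟨j, h.symm⟩)
    have hroot : ∀ w, (P - C x * Q).eval w = 0 → Q.eval w ≠ 0 ∧ rf P Q w = x := by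
      intro w hw
      simp only [Polynomial.eval_sub, Polynomial.eval_mul, Polynomial.eval_C] at hw
      have hQw : Q.eval w ≠ 0 := by
        intro h0
        rw [h0, mul_zero, sub_zero] at hw
        exact hnotboth w h0 hw
      refine ⟨hQw, ?_⟩
      rw [rf, div_eq_iff hQw]
      exact sub_eq_zero.1 hw
    have hdeg : (P - C x * Q).natDegree = d := by
      refine le_antisymm ?_ (Polynomial.le_natDegree_of_ne_zero ?_)
      · refine (Polynomial.natDegree_sub_le _ _).trans (max_le hPd ?_)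
        exact (Polynomial.natDegree_C_mul_le _ _).trans hQd.le
      · rw [Polynomial.coeff_sub, Polynomial.coeff_C_mul, sub_ne_zero]
        intro h
        apply hxz
        rw [eq_div_iff hlead]
        exact h.symm
    have hx0 : P - C x * Q ≠ 0 := by
      intro h
      rw [h] at hdeg
      simp at hdeg
      omega
    obtain ⟨S, hSd, hS⟩ := D1_pf hPd hQd.le hdeg hx0 (fun w hw h0 => hxc w h0 (hroot w hw).2)
    have h1 := D2_inv2 hc hQc (v := v) (α := α) (by simp [hv, hg]) hvs hα0 hαs hQv hNv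
      (hT S hSd (tan_pf hQcr hxc hx0 hS)) hx0 hxv
      hx.of_norm (fun w hw => by
        have h2 := hroot w hw
        by_contra h3
        apply hx2
        exact ⟨w, ⟨fun h4 => h3 h4.of_norm, h2.1⟩, h2.2⟩) hS
    rw [h1]
    refine (enorm_sum_le _ _).trans (le_of_eq ?_)
    exact Finset.sum_congr rfl fun w _ => enorm_mul _ _
  -- the measure
  set m : Measure ℂ := volume.withDensity (fun x => ‖phi α v x‖ₑ) with hm
  have hφe : Measurable fun x => ‖phi α v x‖ₑ := hφm.enorm
  have hfinm : IsFiniteMeasure m := by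
    refine isFiniteMeasure_withDensity hφi
  have hmono : ∀ A, MeasurableSet A → m A ≤ m (g ⁻¹' A) := by
    intro A hA
    rw [hm, withDensity_apply _ hA, withDensity_apply _ (hgm hA)]
    refine (lintegral_mono_ae (ae_restrict_of_ae hineq)).trans ?_
    have := D4_area hPQ hN hφe hA
    rw [← hg] at this
    exact this
  have hmz : m A₀ = 0 := by
    set Gd : Set ℂ := {x | ∃ U : Set ℂ, x ∈ U ∧ IsOpen U ∧ ∀ y ∈ U, ∀ k, 0 < k → g^[k] y ∉ U}
      with hGd
    have h1 : m Gd = 0 := by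
      refine measure_null_of_locally_null Gd fun x hx => ?_
      obtain ⟨U, hxU, hU, hw⟩ := hx
      exact ⟨U, mem_nhdsWithin_of_mem_nhds (hU.mem_nhds hxU),
        D5_null hgm hmono hU.measurableSet hw⟩
    have h2 : m (A₀ \ Gd) = 0 := by
      have h3 : volume (A₀ \ Gd) = 0 := by
        refine measure_mono_null ?_ (ae_iff.1 hwand)
        rintro x ⟨hx1, hx2⟩
        simp only [Set.mem_ofPred_eq, Classical.not_imp]
        exact ⟨hx1, hx2⟩
      exact (withDensity_absolutelyContinuous _ _) h3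
    have h4 : m A₀ ≤ m Gd + m (A₀ \ Gd) := by
      refine (measure_mono ?_).trans (measure_union_le _ _)
      intro x hx
      by_cases h : x ∈ Gd
      · exact Or.inl h
      · exact Or.inr ⟨hx, h⟩
    rw [h1, h2, add_zero] at h4
    exact nonpos_iff_eq_zero.1 h4
  have hclK : closure (Set.range v) ⊆ K :=
    closure_minimal (Set.range_subset_iff.2 hvK) hK.isClosed
  have hφA : ∀ x ∈ A₀, phi α v x = 0 := by
    rw [hm, withDensity_apply _ hA₀o.measurableSet, lintegral_eq_zero_iff hφe] at hmz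
    have h1 : phi α v =ᵐ[volume.restrict A₀] (fun _ => (0 : ℂ)) := by
      filter_upwards [hmz] with x hx
      simpa using hx
    exact Measure.eqOn_open_of_ae_eq h1 hA₀o
      (fun x hx => (phi_continuousAt hαn fun h => hA₀K x hx (hclK h)).continuousWithinAt)
      continuousOn_const
  have hφΩ : ∀ x, x ∉ closure (Set.range v) → phi α v x = 0 := by
    intro x hx
    by_contra hne0
    have h1 : ∀ᶠ y in 𝓝 x, phi α v y ≠ 0 := (phi_continuousAt hαn hx).eventually_ne hne0
    obtain ⟨y, hy1, hy2⟩ := (hA₀d.inter_nhds_nonempty h1)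
    exact hy2 (hφA y hy1)
  have hφ0 : ∀ᵐ x : ℂ, phi α v x = 0 := by
    rw [ae_iff]
    refine measure_mono_null ?_ hvol
    intro x hx
    by_contra h
    exact hx (hφΩ x h)
  -- the contradiction
  have hu := D6_unique hαn hker hφ0 (v 0)
  have hsj : Summable fun j => (if v j = v 0 then α j else 0) := by
    refine Summable.of_norm_bounded hαn fun j => ?_
    split_ifs
    · exact le_rfl
    · simp
  by_cases hper : ∃ p, 0 < p ∧ v p = v 0
  · set p := Nat.find hper with hp
    obtain ⟨hp0, hpv⟩ := Nat.find_spec hper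
    rw [← hp] at hp0 hpv
    have hvp : ∀ j, v (j + p) = v j := by
      intro j
      simp only [hv] at hpv ⊢
      rw [Function.iterate_add_apply, hpv]
      simp
    have hαp : ∀ j, α (j + p) = α p * α j := by
      intro j
      simp only [hα]
      have h1 := rf_iter_deriv_add (P := P) (Q := Q) (z := g c) j p (fun i _ => by
        rw [← hg]; exact hQv i)
      rw [← hg] at h1
      have h2 : g^[p] (g c) = g c := by
        have := hpv
        simp only [hv] at this
        simpa using this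
      rw [h1, h2, mul_inv, mul_comm]
    have h3 : (∑ j ∈ Finset.range p, (if v j = v 0 then α j else 0)) = 1 := by
      rw [Finset.sum_eq_single 0]
      · rw [if_pos rfl, hα0]
      · intro j hj hj0
        rw [if_neg]
        intro h4
        exact Nat.find_min hper (Finset.mem_range.1 hj) ⟨Nat.pos_of_ne_zero hj0, h4⟩
      · intro h4
        exact absurd (Finset.mem_range.2 hp0) h4
    have h5 := hsj.sum_add_tsum_nat_add p
    rw [h3, hu] at h5
    have h6 : ∑' j, (if v (j + p) = v 0 then α (j + p) else 0) =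
        α p * ∑' j, (if v j = v 0 then α j else 0) := by
      rw [← tsum_mul_left]
      refine tsum_congr fun j => ?_
      rw [hvp, hαp, mul_ite, mul_zero]
    rw [h6, hu, mul_zero, add_zero] at h5
    exact one_ne_zero h5
  · push Not at hper
    have h1 : ∑' j, (if v j = v 0 then α j else 0) = α 0 := by
      rw [tsum_eq_single 0]
      · rw [if_pos rfl]
      · intro j hj
        rw [if_neg (hper j (Nat.pos_of_ne_zero hj))]
    rw [hu, hα0] at h1
    exact zero_ne_one h1

theorem t_TRST : Pool.Agent.H207.TF.S_TRST := by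
  intro P Q d hd hPQ hPd hQd hQcr c hc hN K hK hKc hKQ hne hsum A₀ hA₀o hA₀d hA₀K hwand hvol
  obtain ⟨S, h1, h2, h3⟩ := transversal2 hd hPQ hPd hQd hQcr hc hN hK hKc hKQ hne hsum hA₀o hA₀d
    hA₀K hwand hvol
  exact ⟨S, h1, h2, h3⟩

end Pool.Agent.H643.TF207
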